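import Pool.Agent.Lib.MP_a437dc_al.Exists

namespace Pool.Agent.Lib.MP_a437dc_al

open Function

namespace Rationalization

variable (L : Rationalization)

theorem map_comp_η {G H : GrpCat.{0}} (f : G →* H) :
    (L.map f).comp (L.η G) = (L.η H).comp f :=
  (L.univ G (L.obj H) (L.isLocal H) ((L.η H).comp f)).exists.choose_spec

theorem map_η {G H : GrpCat.{0}} (f : G →* H) (g : G) : L.map f (L.η G g) = L.η H (f g) :=
  DFunLike.congr_fun (L.map_comp_η f) g

theorem η_bijective {T : GrpCat.{0}} (hT : IsLocal T) : Bijective (L.η T) := by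
  obtain ⟨F, hF, -⟩ := L.univ T T hT (MonoidHom.id T)
  have h1 : ∀ x, F (L.η T x) = x := fun x => DFunLike.congr_fun hF x
  have h2 : (L.η T).comp F = MonoidHom.id _ := by
    refine (L.univ T (L.obj T) (L.isLocal T) (L.η T)).unique ?_ ?_
    · ext x
      simp [h1]
    · ext x
      simp
  exact ⟨LeftInverse.injective h1,
    RightInverse.surjective (g := F) (fun x => DFunLike.congr_fun h2 x)⟩

theorem isFlat_of_isLocal {N E G : GrpCat.{0}} (hN : IsLocal N) (hE : IsLocal E) (hG : IsLocal G)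
    {i : N →* E} {q : E →* G} (h : IsExtension i q) : L.IsFlat i q := by
  have bN := L.η_bijective hN
  have bE := L.η_bijective hE
  have bG := L.η_bijective hG
  refine ⟨?_, ?_, ?_⟩
  · intro x y hxy
    obtain ⟨x, rfl⟩ := bN.2 x
    obtain ⟨y, rfl⟩ := bN.2 y
    rw [map_η, map_η] at hxy
    rw [h.1 (bE.1 hxy)]
  · intro x
    obtain ⟨x, rfl⟩ := bG.2 x
    obtain ⟨e, rfl⟩ := h.2.1 x
    exact ⟨L.η E e, L.map_η q e⟩
  · ext x
    obtain ⟨x, rfl⟩ := bE.2 x
    rw [MonoidHom.mem_ker, map_η, map_eq_one_iff _ bG.1, ← MonoidHom.mem_ker, ← h.2.2]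
    constructor
    · rintro ⟨y, hy⟩
      obtain ⟨y, rfl⟩ := bN.2 y
      rw [map_η] at hy
      exact ⟨y, bE.1 hy⟩
    · rintro ⟨y, rfl⟩
      exact ⟨L.η N y, L.map_η i y⟩

end Rationalization

/-- The group of maps `x ↦ exp t * x + b` of the real line. -/
@[ext] structure Aff : Type where
  b : ℝ
  t : ℝ

namespace Aff

noncomputable instance : Mul Aff := ⟨fun x y => ⟨x.b + Real.exp x.t * y.b, x.t + y.t⟩⟩
instance : One Aff := ⟨⟨0, 0⟩⟩
noncomputable instance : Inv Aff := ⟨fun x => ⟨-(Real.exp (-x.t) * x.b), -x.t⟩⟩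

@[simp] theorem mul_b (x y : Aff) : (x * y).b = x.b + Real.exp x.t * y.b := rfl
@[simp] theorem mul_t (x y : Aff) : (x * y).t = x.t + y.t := rfl
@[simp] theorem one_b : (1 : Aff).b = 0 := rfl
@[simp] theorem one_t : (1 : Aff).t = 0 := rfl
@[simp] theorem inv_b (x : Aff) : x⁻¹.b = -(Real.exp (-x.t) * x.b) := rfl
@[simp] theorem inv_t (x : Aff) : x⁻¹.t = -x.t := rfl

noncomputable instance : Group Aff :=
  Group.ofLeftAxioms
    (fun a b c => by ext <;> simp [Real.exp_add] <;> ring)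
    (fun a => by ext <;> simp)
    (fun a => by ext <;> simp)

theorem pow_t (x : Aff) (n : ℕ) : (x ^ n).t = n * x.t := by
  induction n with
  | zero => simp
  | succ n ih => rw [pow_succ, mul_t, ih]; push_cast; ring

theorem pow_b (x : Aff) (n : ℕ) :
    (x ^ n).b = (∑ i ∈ Finset.range n, Real.exp (i * x.t)) * x.b := by
  induction n with
  | zero => simp
  | succ n ih => rw [pow_succ, mul_b, ih, pow_t, Finset.sum_range_succ]; ring

theorem sum_pos (t : ℝ) {n : ℕ} (hn : 0 < n) : 0 < ∑ i ∈ Finset.range n, Real.exp (i * t) :=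
  Finset.sum_pos (fun _ _ => Real.exp_pos _) ⟨0, Finset.mem_range.2 hn⟩

theorem isLocal : IsLocal Aff := by
  intro p hp
  have hp0 : (p : ℝ) ≠ 0 := by exact_mod_cast hp.ne_zero
  constructor
  · intro x y hxy
    have hxy' : x ^ p = y ^ p := hxy
    have ht : x.t = y.t := by
      have := congrArg Aff.t hxy'
      rw [pow_t, pow_t] at this
      exact mul_left_cancel₀ hp0 this
    have hb : x.b = y.b := by
      have := congrArg Aff.b hxy'
      rw [pow_b, pow_b, ht] at this
      exact mul_left_cancel₀ (sum_pos y.t hp.pos).ne' this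
    exact Aff.ext hb ht
  · intro y
    refine ⟨⟨y.b / ∑ i ∈ Finset.range p, Real.exp (i * (y.t / p)), y.t / p⟩, ?_⟩
    have := (sum_pos (y.t / p) hp.pos).ne'
    ext
    · simp only [pow_b]
      exact mul_div_cancel₀ _ this
    · simp only [pow_t]
      field_simp

noncomputable def inl : Multiplicative ℝ →* Aff :=
  MonoidHom.mk' (fun b => ⟨b.toAdd, 0⟩) (fun a b => by ext <;> simp)

noncomputable def proj : Aff →* Multiplicative ℝ :=
  MonoidHom.mk' (fun x => Multiplicative.ofAdd x.t) (fun a b => by simp [ofAdd_add])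

theorem isExtension : IsExtension inl proj := by
  refine ⟨?_, ?_, ?_⟩
  · intro a b h
    exact Multiplicative.toAdd.injective (congrArg Aff.b h)
  · intro t
    exact ⟨⟨0, t.toAdd⟩, rfl⟩
  · ext x
    constructor
    · rintro ⟨b, rfl⟩
      rfl
    · intro hx
      have hx' : x.t = 0 := hx
      exact ⟨Multiplicative.ofAdd x.b, Aff.ext rfl hx'.symm⟩

end Aff

theorem isLocal_real : IsLocal (Multiplicative ℝ) := by
  intro p hp
  have hp0 : (p : ℝ) ≠ 0 := by exact_mod_cast hp.ne_zero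
  constructor
  · intro x y hxy
    have h : (x ^ p).toAdd = (y ^ p).toAdd := congrArg Multiplicative.toAdd hxy
    rw [toAdd_pow, toAdd_pow, nsmul_eq_mul, nsmul_eq_mul] at h
    exact Multiplicative.toAdd.injective (mul_left_cancel₀ hp0 h)
  · intro y
    refine ⟨Multiplicative.ofAdd (y.toAdd / p), Multiplicative.toAdd.injective ?_⟩
    simp only [toAdd_pow, toAdd_ofAdd, nsmul_eq_mul]
    field_simp

/-- `n ↦ n log 2`. -/
noncomputable def α : Multiplicative ℤ →* Multiplicative ℝ :=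
  MonoidHom.mk' (fun n => Multiplicative.ofAdd ((n.toAdd : ℝ) * Real.log 2))
    (fun a b => by simp [← ofAdd_add, add_mul])

abbrev P : Type := fibreProduct Aff.proj α

theorem P_t (x : P) : x.1.1.t = (x.1.2.toAdd : ℝ) * Real.log 2 :=
  congrArg Multiplicative.toAdd x.2

theorem exp_P_t (x : P) : Real.exp x.1.1.t = (((2 : ℚ) ^ x.1.2.toAdd : ℚ) : ℝ) := by
  rw [P_t, mul_comm, Real.exp_mul, Real.exp_log (by norm_num), Real.rpow_intCast]
  push_cast
  rfl

/-- A `ℚ`-linear map of `ℝ` twists the projection `P → Aff`. -/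
noncomputable def twist (f : ℝ →ₗ[ℚ] ℝ) : P →* Aff :=
  MonoidHom.mk' (fun x => ⟨f x.1.1.b, x.1.1.t⟩) (fun x y => by
    ext
    · change f (x.1.1.b + Real.exp x.1.1.t * y.1.1.b) = f x.1.1.b + Real.exp x.1.1.t * f y.1.1.b
      rw [exp_P_t, map_add, ← Rat.smul_def, map_smul, Rat.smul_def]
    · rfl)

theorem exists_f : ∃ f : ℝ →ₗ[ℚ] ℝ, f 1 = 0 ∧ f (√2) ≠ 0 := by
  have h : (√2 : ℝ) ∉ Submodule.span ℚ {(1 : ℝ)} := by
    intro h
    obtain ⟨a, ha⟩ := Submodule.mem_span_singleton.1 h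
    exact irrational_sqrt_two ⟨a, by simpa using ha⟩
  obtain ⟨f, hf, hker⟩ := Submodule.exists_le_ker_of_notMem h
  refine ⟨(Algebra.linearMap ℚ ℝ).comp f, ?_, ?_⟩
  · have : f 1 = 0 := hker (Submodule.mem_span_singleton_self _)
    simp [this]
  · simpa using hf

noncomputable def x₀ : P :=
  ⟨(⟨0, Real.log 2⟩, Multiplicative.ofAdd 1), by
    change Multiplicative.ofAdd (Real.log 2) =
      Multiplicative.ofAdd (((1 : ℤ) : ℝ) * Real.log 2)
    simp⟩

theorem not_flat (L : Rationalization) :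
    ¬ L.IsFlat (N := GrpCat.of (Multiplicative ℝ)) (E := GrpCat.of P)
      (G := GrpCat.of (Multiplicative ℤ))
      (pullbackIncl Aff.isExtension α) (pullbackProj Aff.proj α) := by
  rintro ⟨-, -, hk⟩
  set j := pullbackIncl Aff.isExtension α with hj
  obtain ⟨r, hr⟩ := (L.isLocal (GrpCat.of P) 2 Nat.prime_two).2 (L.η (GrpCat.of P) x₀)
  have hr' : r ^ 2 = L.η (GrpCat.of P) x₀ := hr
  have hmem : r * L.η (GrpCat.of P) (j (Multiplicative.ofAdd (1 : ℝ))) * r⁻¹ ∈
      (L.map (G := GrpCat.of (Multiplicative ℝ)) (H := GrpCat.of P) j).range := by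
    rw [hk]
    refine (MonoidHom.normal_ker _).conj_mem _ ?_ r
    rw [← hk]
    exact ⟨L.η _ (Multiplicative.ofAdd (1 : ℝ)),
      L.map_η (G := GrpCat.of (Multiplicative ℝ)) (H := GrpCat.of P) j
        (Multiplicative.ofAdd (1 : ℝ))⟩
  obtain ⟨y, hy⟩ := hmem
  obtain ⟨c, rfl⟩ := (L.η_bijective (T := GrpCat.of (Multiplicative ℝ)) isLocal_real).2 y
  rw [L.map_η] at hy
  have key : ∀ f : ℝ →ₗ[ℚ] ℝ, f (Multiplicative.toAdd (α := ℝ) c) = √2 * f 1 := by
    intro f
    obtain ⟨F, hF, -⟩ := L.univ (GrpCat.of P) (GrpCat.of Aff) Aff.isLocal (twist f)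
    have hF' : ∀ x, F (L.η (GrpCat.of P) x) = twist f x := fun x => DFunLike.congr_fun hF x
    have hFr : F r = (⟨0, Real.log 2 / 2⟩ : Aff) := by
      apply (Aff.isLocal 2 Nat.prime_two).1
      change F r ^ 2 = (⟨0, Real.log 2 / 2⟩ : Aff) ^ 2
      rw [← map_pow, hr', hF']
      apply Aff.ext
      · rw [Aff.pow_b]
        change f 0 = _
        simp
      · rw [Aff.pow_t]
        change Real.log 2 = _
        push_cast
        ring
    have h := congrArg F hy
    rw [map_mul, map_mul, map_inv, hF', hF', hFr] at h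
    have hb := congrArg Aff.b h
    have he : Real.exp (Real.log 2 / 2) = √2 := by
      rw [Real.sqrt_eq_rpow, Real.rpow_def_of_pos (by norm_num)]
      congr 1
      ring
    change f (Multiplicative.toAdd c) =
      (0 + Real.exp (Real.log 2 / 2) * f 1) +
        Real.exp (Real.log 2 / 2 + 0) * (-(Real.exp (-(Real.log 2 / 2)) * 0)) at hb
    rw [hb, he]
    ring
  obtain ⟨f, hf1, hf2⟩ := exists_f
  have hc : Multiplicative.toAdd (α := ℝ) c = √2 := by simpa using key LinearMap.id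
  have := key f
  rw [hc, hf1, mul_zero] at this
  exact hf2 this

theorem not_conditionallyFlat (L : Rationalization) : ¬ L.ConditionallyFlat := fun h =>
  not_flat L (h (GrpCat.of (Multiplicative ℝ)) (GrpCat.of Aff) (GrpCat.of (Multiplicative ℝ))
    (GrpCat.of (Multiplicative ℤ)) Aff.inl Aff.proj Aff.isExtension α
    (L.isFlat_of_isLocal isLocal_real Aff.isLocal isLocal_real Aff.isExtension))

end Pool.Agent.Lib.MP_a437dc_al
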