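import Mathlib

namespace Pool.Agent.Lib.MP_a437dc_al

/-- A group is local for rationalization when every `p`-th power map, `p` prime, is bijective. -/
def IsLocal (T : Type) [Group T] : Prop :=
  ∀ p : ℕ, p.Prime → Function.Bijective (fun x : T => x ^ p)

/-- A rationalization of groups: for every group `G` a homomorphism `η G : G → obj G` to a
local group, universal among homomorphisms from `G` to local groups. -/
structure Rationalization where
  obj : GrpCat.{0} → GrpCat.{0}
  η : ∀ G : GrpCat.{0}, G →* obj G
  isLocal : ∀ G : GrpCat.{0}, IsLocal (obj G)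
  univ : ∀ (G T : GrpCat.{0}), IsLocal T → ∀ f : G →* T,
    ∃! F : obj G →* T, F.comp (η G) = f

/-- The functor on homomorphisms: `L f` is the unique homomorphism with `L f ∘ η = η ∘ f`. -/
noncomputable def Rationalization.map (L : Rationalization) {G H : GrpCat.{0}} (f : G →* H) :
    L.obj G →* L.obj H :=
  (L.univ G (L.obj H) (L.isLocal H) ((L.η H).comp f)).exists.choose

/-- `1 → N → E → G → 1` is a short exact sequence of groups. -/
def IsExtension {N E G : Type} [Group N] [Group E] [Group G] (i : N →* E) (q : E →* G) : Prop :=
  Function.Injective i ∧ Function.Surjective q ∧ i.range = q.ker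

/-- The fibre product `E ×_G H`, as a subgroup of `E × H`. -/
def fibreProduct {E G H : Type} [Group E] [Group G] [Group H] (q : E →* G) (α : H →* G) :
    Subgroup (E × H) :=
  MonoidHom.eqLocus (q.comp (MonoidHom.fst E H)) (α.comp (MonoidHom.snd E H))

/-- The map `N → E ×_G H`, `n ↦ (i n, 1)`, of the pulled-back extension. -/
def pullbackIncl {N E G H : Type} [Group N] [Group E] [Group G] [Group H]
    {i : N →* E} {q : E →* G} (h : IsExtension i q) (α : H →* G) : N →* fibreProduct q α :=
  ((MonoidHom.inl E H).comp i).codRestrict (fibreProduct q α) (fun n => by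
    have hn : i n ∈ q.ker := h.2.2 ▸ MonoidHom.mem_range.2 ⟨n, rfl⟩
    change q (i n) = α 1
    rw [map_one]
    exact hn)

/-- The map `E ×_G H → H`, `(e, h) ↦ h`, of the pulled-back extension. -/
def pullbackProj {E G H : Type} [Group E] [Group G] [Group H] (q : E →* G) (α : H →* G) :
    fibreProduct q α →* H :=
  (MonoidHom.snd E H).comp (fibreProduct q α).subtype

/-- An extension is `L`-flat when `1 → LN → LE → LG → 1` is again short exact. -/
def Rationalization.IsFlat (L : Rationalization) {N E G : GrpCat.{0}}
    (i : N →* E) (q : E →* G) : Prop :=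
  IsExtension (L.map i) (L.map q)

/-- `L` is conditionally flat: every pullback of an `L`-flat extension is `L`-flat. -/
def Rationalization.ConditionallyFlat (L : Rationalization) : Prop :=
  ∀ (N E G H : GrpCat.{0}) (i : N →* E) (q : E →* G) (h : IsExtension i q) (α : H →* G),
    L.IsFlat i q →
      L.IsFlat (N := N) (E := GrpCat.of (fibreProduct q α)) (G := H)
        (pullbackIncl h α) (pullbackProj q α)

end Pool.Agent.Lib.MP_a437dc_al
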