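import Pool.Agent.Lib.MP_a437dc_al.Defs

namespace Pool.Agent.Lib.MP_a437dc_al

inductive Tm (G : Type) : Type
  | of : G → Tm G
  | one : Tm G
  | mul : Tm G → Tm G → Tm G
  | inv : Tm G → Tm G
  | root : Nat.Primes → Tm G → Tm G

noncomputable def rootIn {T : Type} [Group T] (hT : IsLocal T) (p : Nat.Primes) (x : T) : T :=
  ((hT p.1 p.2).2 x).choose

theorem rootIn_pow {T : Type} [Group T] (hT : IsLocal T) (p : Nat.Primes) (x : T) :
    rootIn hT p x ^ p.1 = x :=
  ((hT p.1 p.2).2 x).choose_spec

noncomputable def Tm.eval {G T : Type} [Group T] (hT : IsLocal T) (f : G → T) : Tm G → T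
  | .of g => f g
  | .one => 1
  | .mul a b => a.eval hT f * b.eval hT f
  | .inv a => (a.eval hT f)⁻¹
  | .root p a => rootIn hT p (a.eval hT f)

def tmSetoid (G : Type) [Group G] : Setoid (Tm G) where
  r a b := ∀ (T : GrpCat.{0}) (hT : IsLocal T) (f : G →* T), a.eval hT f = b.eval hT f
  iseqv :=
    { refl := fun _ _ _ _ => rfl
      symm := fun h T hT f => (h T hT f).symm
      trans := fun h h' T hT f => (h T hT f).trans (h' T hT f) }

def Loc (G : Type) [Group G] : Type := Quotient (tmSetoid G)

namespace Loc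

variable {G : Type} [Group G]

def mk (a : Tm G) : Loc G := Quotient.mk (tmSetoid G) a

noncomputable def ev (T : GrpCat.{0}) (hT : IsLocal T) (f : G →* T) : Loc G → T :=
  Quotient.lift (fun a => a.eval hT f) (fun _ _ h => h T hT f)

theorem ext' {x y : Loc G}
    (h : ∀ (T : GrpCat.{0}) (hT : IsLocal T) (f : G →* T), ev T hT f x = ev T hT f y) : x = y := by
  induction x using Quotient.inductionOn
  induction y using Quotient.inductionOn
  exact Quotient.sound h

instance : Mul (Loc G) :=
  ⟨Quotient.map₂ Tm.mul (fun a a' h b b' h' T hT f => by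
    change a.eval hT f * b.eval hT f = a'.eval hT f * b'.eval hT f
    rw [h T hT f, h' T hT f])⟩

instance : Inv (Loc G) :=
  ⟨Quotient.map Tm.inv (fun a a' h T hT f => by
    change (a.eval hT f)⁻¹ = (a'.eval hT f)⁻¹
    rw [h T hT f])⟩

instance : One (Loc G) := ⟨mk Tm.one⟩

def root (p : Nat.Primes) : Loc G → Loc G :=
  Quotient.map (Tm.root p) (fun a a' h T hT f => by
    change rootIn hT p (a.eval hT f) = rootIn hT p (a'.eval hT f)
    rw [h T hT f])

theorem ev_mul (T : GrpCat.{0}) (hT : IsLocal T) (f : G →* T) (x y : Loc G) :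
    ev T hT f (x * y) = ev T hT f x * ev T hT f y := by
  induction x using Quotient.inductionOn
  induction y using Quotient.inductionOn
  rfl

theorem ev_inv (T : GrpCat.{0}) (hT : IsLocal T) (f : G →* T) (x : Loc G) :
    ev T hT f x⁻¹ = (ev T hT f x)⁻¹ := by
  induction x using Quotient.inductionOn
  rfl

theorem ev_one (T : GrpCat.{0}) (hT : IsLocal T) (f : G →* T) :
    ev T hT f 1 = 1 := rfl

theorem ev_root (T : GrpCat.{0}) (hT : IsLocal T) (f : G →* T) (p : Nat.Primes) (x : Loc G) :
    ev T hT f (root p x) = rootIn hT p (ev T hT f x) := by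
  induction x using Quotient.inductionOn
  rfl

instance : Group (Loc G) :=
  Group.ofLeftAxioms
    (fun a b c => ext' fun T hT f => by simp only [ev_mul, mul_assoc])
    (fun a => ext' fun T hT f => by simp only [ev_mul, ev_one, one_mul])
    (fun a => ext' fun T hT f => by simp only [ev_mul, ev_one, ev_inv, inv_mul_cancel])

noncomputable def evHom (T : GrpCat.{0}) (hT : IsLocal T) (f : G →* T) : Loc G →* T :=
  MonoidHom.mk' (ev T hT f) (ev_mul T hT f)

theorem ext'' {x y : Loc G}
    (h : ∀ (T : GrpCat.{0}) (hT : IsLocal T) (f : G →* T),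
      evHom T hT f x = evHom T hT f y) : x = y := ext' h

theorem root_pow (p : Nat.Primes) (x : Loc G) : root p x ^ p.1 = x := by
  refine ext'' fun T hT f => ?_
  rw [map_pow]
  change ev T hT f (root p x) ^ p.1 = ev T hT f x
  rw [ev_root, rootIn_pow]

theorem isLocal : IsLocal (Loc G) := by
  intro p hp
  constructor
  · intro x y hxy
    refine ext'' fun T hT f => (hT p hp).1 ?_
    have := congrArg (evHom T hT f) hxy
    simpa only [map_pow] using this
  · intro x
    exact ⟨root ⟨p, hp⟩ x, root_pow ⟨p, hp⟩ x⟩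

def of : G →* Loc G :=
  MonoidHom.mk' (fun g => mk (Tm.of g)) (fun a b => ext' fun T hT f => by
    rw [ev_mul]
    exact map_mul f a b)

theorem univ (T : GrpCat.{0}) (hT : IsLocal T) (f : G →* T) :
    ∃! F : Loc G →* T, F.comp of = f := by
  refine ⟨evHom T hT f, by ext g; rfl, ?_⟩
  intro F hF
  ext x
  induction x using Quotient.inductionOn with
  | h a =>
    change F (mk a) = a.eval hT f
    induction a with
    | of g => exact DFunLike.congr_fun hF g
    | one => exact map_one F
    | mul a b iha ihb =>
      change F (mk a * mk b) = a.eval hT f * b.eval hT f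
      rw [map_mul, iha, ihb]
    | inv a iha =>
      change F (mk a)⁻¹ = (a.eval hT f)⁻¹
      rw [map_inv, iha]
    | root p a iha =>
      change F (root p (mk a)) = rootIn hT p (a.eval hT f)
      apply (hT p.1 p.2).1
      change F (root p (mk a)) ^ p.1 = rootIn hT p (a.eval hT f) ^ p.1
      rw [← map_pow, root_pow, rootIn_pow, iha]

end Loc

theorem nonempty_rationalization : Nonempty Rationalization :=
  ⟨{ obj := fun G => GrpCat.of (Loc G)
     η := fun _ => Loc.of
     isLocal := fun _ => Loc.isLocal
     univ := fun _ T hT f => Loc.univ T hT f }⟩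

end Pool.Agent.Lib.MP_a437dc_al
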